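import Mathlib.Combinatorics.HalesJewett
import Mathlib.Tactic

set_option autoImplicit false

/-!
# MP_3e1131_co: a uniform bound in the generalized van der Waerden game

For every `n ≥ 1` there is a number `C n` such that for every set `S` of `n` natural numbers Maker
can occupy a homothetic copy `a S + b` of `S` within his first `C n` moves.
-/

namespace Pool.Agent.Results.MP_3e1131_co.UniformBound

open Finset

/-- The set `M` of natural numbers contains a copy `a S + b = {a s + b : s ∈ S}` of `S`, for some
integer `a ≥ 1` and some integer `b`. -/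
def HasCopy (S M : Finset ℕ) : Prop :=
  ∃ a b : ℤ, 1 ≤ a ∧ ∀ s ∈ S, ∃ m ∈ M, (m : ℤ) = a * s + b

/-- `MakerWinsIn S N M B`: in the position of the game `G(S)` in which Maker has claimed the numbers
in `M`, Breaker has claimed the numbers in `B` and it is Maker's turn, Maker has a strategy by which
his claimed numbers contain a copy of `S` after at most `N` further selections of his own (whatever
unclaimed natural numbers Breaker selects in his turns). -/
def MakerWinsIn (S : Finset ℕ) : ℕ → Finset ℕ → Finset ℕ → Prop
  | 0, M, _ => HasCopy S M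
  | N + 1, M, B => HasCopy S M ∨ ∃ x, x ∉ M ∧ x ∉ B ∧
      (HasCopy S (insert x M) ∨
        ∀ y, y ∉ insert x M → y ∉ B → MakerWinsIn S N (insert x M) (insert y B))

/-- Maker has an `N`-move strategy for `S` in the game `G(S)`, in which Maker moves first. -/
def MakerStrategy (S : Finset ℕ) (N : ℕ) : Prop := MakerWinsIn S N ∅ ∅

/-! ### The game on a finite board -/

section Board

variable (W : Finset ℕ → Prop)

/-- Auxiliary game on the finite board `U` of unclaimed numbers: if `b = true`, it is Maker's turn,
if `b = false`, it is Breaker's turn; Maker owns `M`. All numbers of the board are claimed. `k` is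
the number of remaining turns. -/
def Aux : ℕ → Bool → Finset ℕ → Finset ℕ → Prop
  | 0, _, _, M => W M
  | k + 1, true, U, M => ∃ x ∈ U, Aux k false (U.erase x) (insert x M)
  | k + 1, false, U, M => ∀ y ∈ U, Aux k true (U.erase y) M

variable {W}

/-- An additional number does not harm Maker. -/
lemma aux_extra (hW : ∀ A B : Finset ℕ, A ⊆ B → W A → W B) :
    ∀ (k : ℕ) (b : Bool) (U M : Finset ℕ), U.card = k + 1 → Aux W (k + 1) b U M → ∀ x ∈ U,
        Aux W k b (U.erase x) (insert x M) := by
  intro k
  induction k with
  | zero =>
    intro b U M hU h x hx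
    obtain ⟨z, rfl⟩ := card_eq_one.mp hU
    have hxz : x = z := by simpa using hx
    subst hxz
    cases b with
    | true =>
      obtain ⟨y, hy, h⟩ := h
      have hyx : y = x := by simpa using hy
      subst hyx
      exact h
    | false =>
      have h2 := h x (by simp)
      exact hW _ _ (subset_insert _ _) h2
  | succ k ih =>
    intro b U M hU h x hx
    have hUx : (U.erase x).card = k + 1 := by rw [card_erase_of_mem hx, hU]; rfl
    cases b with
    | true =>
      obtain ⟨z, hz, h⟩ := h
      by_cases hzx : z = x
      · subst hzx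
        -- the move is already made; use an extra move
        obtain ⟨y, hy⟩ : (U.erase z).Nonempty := by
          rw [← card_pos]; omega
        refine ⟨y, hy, ?_⟩
        exact ih false (U.erase z) (insert z M) hUx h y hy
      · have hxz : x ∈ U.erase z := mem_erase.mpr ⟨fun h => hzx h.symm, hx⟩
        have hUz : (U.erase z).card = k + 1 := by rw [card_erase_of_mem hz, hU]; rfl
        have h2 := ih false (U.erase z) (insert z M) hUz h x hxz
        refine ⟨z, mem_erase.mpr ⟨hzx, hz⟩, ?_⟩
        rw [erase_right_comm, insert_comm]
        exact h2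
    | false =>
      intro y hy
      have hyU : y ∈ U := mem_of_mem_erase hy
      have hyx : y ≠ x := ne_of_mem_erase hy
      have h2 := h y hyU
      have hUy : (U.erase y).card = k + 1 := by rw [card_erase_of_mem hyU, hU]; rfl
      have h3 := ih true (U.erase y) M hUy h2 x (mem_erase.mpr ⟨hyx.symm, hx⟩)
      rw [erase_right_comm]
      exact h3

/-- An additional move does not harm Maker. -/
lemma aux_move (hW : ∀ A B : Finset ℕ, A ⊆ B → W A → W B) (k : ℕ) (U M : Finset ℕ)
    (hU : U.card = k) (h : Aux W k false U M) : Aux W k true U M := by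
  cases k with
  | zero => exact h
  | succ k =>
    obtain ⟨x, hx⟩ : U.Nonempty := by rw [← card_pos]; omega
    exact ⟨x, hx, aux_extra hW k false U M hU h x hx⟩

/-- Either Maker (owning `M`, moving first) can achieve `W`, or the player who owns `B` and moves
second can achieve `W`, if `W` holds for one of the two parts of each partition of the board. -/
lemma aux_or (X : Finset ℕ) (hR : ∀ Y ⊆ X, W Y ∨ W (X \ Y)) :
    ∀ (k : ℕ) (b : Bool) (U M B : Finset ℕ), U.card = k → U ⊆ X → M ⊆ X → Disjoint U M →
      B = X \ (U ∪ M) → ¬ Aux W k b U M → Aux W k (!b) U B := by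
  intro k
  induction k with
  | zero =>
    intro b U M B hU hUX hMX hd hB h
    have hU0 : U = ∅ := card_eq_zero.mp hU
    subst hU0
    rw [empty_union] at hB
    rcases hR M hMX with h1 | h1
    · exact absurd h1 h
    · rw [hB]; exact h1
  | succ k ih =>
    intro b U M B hU hUX hMX hd hB h
    cases b with
    | true =>
      -- Maker owning `M` moves and fails
      show ∀ y ∈ U, Aux W k true (U.erase y) B
      intro y hy
      have h1 : ¬ Aux W k false (U.erase y) (insert y M) := fun h2 => h ⟨y, hy, h2⟩
      refine ih false (U.erase y) (insert y M) B ?_ ((erase_subset _ _).trans hUX) ?_ ?_ ?_ h1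
      · rw [card_erase_of_mem hy, hU]; rfl
      · exact insert_subset (hUX hy) hMX
      · rw [disjoint_insert_right]
        exact ⟨notMem_erase _ _, hd.mono_left (erase_subset _ _)⟩
      · rw [hB]
        congr 1
        ext z
        simp only [mem_union, mem_erase, mem_insert]
        by_cases hz : z = y
        · subst hz; simp [hy]
        · simp [hz]
    | false =>
      show ∃ y ∈ U, Aux W k false (U.erase y) (insert y B)
      have h1 : ∃ y ∈ U, ¬ Aux W k true (U.erase y) M := by
        by_contra hcon
        push Not at hcon
        exact h hcon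
      obtain ⟨y, hy, h1⟩ := h1
      refine ⟨y, hy, ?_⟩
      refine ih true (U.erase y) M (insert y B) ?_ ((erase_subset _ _).trans hUX) hMX
        (hd.mono_left (erase_subset _ _)) ?_ h1
      · rw [card_erase_of_mem hy, hU]; rfl
      · rw [hB]
        ext z
        simp only [mem_insert, mem_sdiff, mem_union, mem_erase]
        by_cases hz : z = y
        · subst hz
          simp only [true_or, ne_eq, not_true_eq_false, false_and, false_or, true_iff]
          exact ⟨hUX hy, fun hzM => (disjoint_left.mp hd) hy hzM⟩
        · simp [hz]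

/-- Strategy stealing on a finite board. -/
lemma aux_first (hW : ∀ A B : Finset ℕ, A ⊆ B → W A → W B) (X : Finset ℕ)
    (hR : ∀ Y ⊆ X, W Y ∨ W (X \ Y)) : Aux W X.card true X ∅ := by
  by_contra h
  have h1 := aux_or X hR X.card true X ∅ ∅ rfl (Subset.refl _) (empty_subset _)
    (disjoint_empty_right _) (by simp) h
  exact h (aux_move hW _ _ _ rfl h1)

end Board

lemma hasCopy_mono (S : Finset ℕ) : ∀ A B : Finset ℕ, A ⊆ B → HasCopy S A → HasCopy S B := by
  rintro A B hAB ⟨a, b, ha, h⟩
  refine ⟨a, b, ha, fun s hs => ?_⟩
  obtain ⟨m, hm, h⟩ := h s hs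
  exact ⟨m, hAB hm, h⟩

/-- A strategy on a finite board of natural numbers is also a strategy in the game `G(S)`. -/
lemma makerWinsIn_of_aux (S : Finset ℕ) : ∀ (N k : ℕ) (U M B : Finset ℕ), k ≤ N → U.card = k →
    Disjoint U M → Disjoint U B → Aux (HasCopy S) k true U M → MakerWinsIn S N M B := by
  intro N
  induction N with
  | zero =>
    intro k U M B hk _ _ _ h
    obtain rfl : k = 0 := by omega
    exact h
  | succ N ih =>
    intro k U M B hN hU hUM hUB h
    cases k with
    | zero => exact Or.inl h
    | succ k =>
      obtain ⟨x, hx, h⟩ := h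
      refine Or.inr ⟨x, disjoint_left.mp hUM hx, disjoint_left.mp hUB hx,
        Or.inr fun y hy1 hy2 => ?_⟩
      have hUx : (U.erase x).card = k := by rw [card_erase_of_mem hx, hU]; rfl
      by_cases hyU : y ∈ U.erase x
      · -- Breaker answers on the board
        cases k with
        | zero =>
          rw [card_eq_zero] at hUx
          rw [hUx] at hyU
          simp at hyU
        | succ k =>
          have hcard : ((U.erase x).erase y).card = k := by
            rw [card_erase_of_mem hyU, hUx]; rfl
          refine ih k ((U.erase x).erase y) (insert x M) (insert y B) (by omega) hcard ?_ ?_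
            (h y hyU)
          · rw [disjoint_insert_right]
            exact ⟨fun hx2 => notMem_erase x U (mem_of_mem_erase hx2),
              hUM.mono_left ((erase_subset _ _).trans (erase_subset _ _))⟩
          · rw [disjoint_insert_right]
            exact ⟨notMem_erase _ _,
              hUB.mono_left ((erase_subset _ _).trans (erase_subset _ _))⟩
      · refine ih k (U.erase x) (insert x M) (insert y B) (by omega) hUx ?_ ?_
          (aux_move (hasCopy_mono S) k _ _ hUx h)
        · rw [disjoint_insert_right]
          exact ⟨notMem_erase _ _, hUM.mono_left (erase_subset _ _)⟩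
        · rw [disjoint_insert_right]
          exact ⟨hyU, hUB.mono_left (erase_subset _ _)⟩

/-- The Hales-Jewett theorem gives, for every `n`, a number `T` such that every set `S` of `n`
natural numbers has a finite board `X` of at most `T` natural numbers for which one part of each
partition of `X` into two parts contains a copy of `S`. -/
lemma exists_board (n : ℕ) : ∃ T : ℕ, ∀ S : Finset ℕ, S.card = n → ∃ X : Finset ℕ, X.card ≤ T ∧
    ∀ Y ⊆ X, HasCopy S Y ∨ HasCopy S (X \ Y) := by
  classical
  obtain ⟨ι, hι, hHJ⟩ := Combinatorics.Line.exists_mono_in_high_dimension (Fin n) Bool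
  refine ⟨Fintype.card (ι → Fin n), fun S hS => ?_⟩
  let e : Fin n ≃o S := S.orderIsoOfFin hS
  let f : (ι → Fin n) → ℕ := fun w => ∑ i, ((e (w i) : S) : ℕ)
  refine ⟨univ.image f, card_image_le, fun Y _ => ?_⟩
  obtain ⟨l, c, hl⟩ := hHJ (fun w => decide (f w ∈ Y))
  -- the active coordinates of the line
  set A : Finset ι := univ.filter (fun i => l.idxFun i = none) with hA
  set b : ℕ := ∑ i ∈ Aᶜ, ((l.idxFun i).map (fun j => ((e j : S) : ℕ))).getD 0 with hb
  have hApos : 1 ≤ A.card := by
    obtain ⟨i, hi⟩ := l.proper
    exact card_pos.mpr ⟨i, by rw [hA, mem_filter]; exact ⟨mem_univ _, hi⟩⟩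
  have hline : ∀ j : Fin n, f (l j) = A.card * ((e j : S) : ℕ) + b := by
    intro j
    show ∑ i, ((e (l j i) : S) : ℕ) = _
    rw [← sum_add_sum_compl A]
    congr 1
    · rw [sum_congr rfl (g := fun _ => ((e j : S) : ℕ)), sum_const, smul_eq_mul]
      intro i hi
      rw [hA, mem_filter] at hi
      rw [l.apply_none _ _ hi.2]
    · refine sum_congr rfl fun i hi => ?_
      rw [mem_compl, hA, mem_filter] at hi
      have hi' : l.idxFun i ≠ none := fun h => hi ⟨mem_univ _, h⟩
      obtain ⟨y, hy⟩ := Option.ne_none_iff_exists'.mp hi'
      rw [Combinatorics.Line.apply_some hy, hy]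
      rfl
  have hcopy : ∀ Z : Finset ℕ, (∀ j : Fin n, f (l j) ∈ Z) → HasCopy S Z := by
    intro Z hZ
    refine ⟨A.card, b, by exact_mod_cast hApos, fun s hs => ?_⟩
    refine ⟨f (l (e.symm ⟨s, hs⟩)), hZ _, ?_⟩
    rw [hline]
    simp
  cases c with
  | true =>
    left
    refine hcopy Y fun j => ?_
    simpa using hl j
  | false =>
    right
    refine hcopy _ fun j => ?_
    rw [mem_sdiff]
    exact ⟨mem_image_of_mem f (mem_univ _), by simpa using hl j⟩

/-- There is a function `C` such that, for every `n ≥ 1` and every set `S` of `n` natural numbers,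
Maker has a `C n`-move strategy for `S`. -/
theorem result :
    ∃ C : ℕ → ℕ, ∀ n : ℕ, 1 ≤ n → ∀ S : Finset ℕ, S.card = n → MakerStrategy S (C n) := by
  choose T hT using exists_board
  refine ⟨T, fun n _ S hS => ?_⟩
  obtain ⟨X, hX, hR⟩ := hT n S hS
  exact makerWinsIn_of_aux S (T n) X.card X ∅ ∅ hX rfl (disjoint_empty_right _)
    (disjoint_empty_right _) (aux_first (hasCopy_mono S) X hR)

end Pool.Agent.Results.MP_3e1131_co.UniformBound
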